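import Pool.Agent.H29.PExt2

namespace Pool.Agent.Results.MP_d7144b_an.Q1

open Filter Topology Pool.Agent.H29.PExt
open scoped ENNReal

/-- Every closed ball of radius `2r` is covered by `n` closed balls of radius `r`. -/
def Doubling (n : ℕ) (A : Type) [MetricSpace A] : Prop :=
  ∀ (x : A) (r : ℝ), 0 < r → ∃ s : Finset A, s.card ≤ n ∧
    Metric.closedBall x (2 * r) ⊆ ⋃ y ∈ s, Metric.closedBall y r

lemma doub (n : ℕ) (hn : 2 ≤ n) : Doubling n A3 := by
  classical
  intro x r hr
  have h1 := d_ab
  have h2 := d_ac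
  have h3 := d_bc
  have h4 := dist_comm va vb
  have h5 := dist_comm va vc
  have h6 := dist_comm vb vc
  have key : ∀ u v : A3, (∀ y, dist y x ≤ 2 * r → dist y u ≤ r ∨ dist y v ≤ r) →
      ∃ s : Finset A3, s.card ≤ n ∧
        Metric.closedBall x (2 * r) ⊆ ⋃ y ∈ s, Metric.closedBall y r := by
    intro u v h
    refine ⟨{u, v}, Finset.card_le_two.trans hn, fun y hy => ?_⟩
    simpa using h y hy
  have s1 := dist_self va
  have s2 := dist_self vb
  have s3 := dist_self vc
  rcases le_or_gt 1 r with h | h
  · refine key va vc fun y _ => ?_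
    rcases A3_cases y with rfl | rfl | rfl
    · left; linarith
    · left; linarith
    · right; linarith
  · rcases A3_cases x with rfl | rfl | rfl
    · refine key va vb fun y hy => ?_
      rcases A3_cases y with rfl | rfl | rfl
      · left; linarith
      · right; linarith
      · linarith
    · refine key va vb fun y hy => ?_
      rcases A3_cases y with rfl | rfl | rfl
      · left; linarith
      · right; linarith
      · linarith
    · refine key vc vc fun y hy => ?_
      rcases A3_cases y with rfl | rfl | rfl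
      · linarith
      · linarith
      · left; linarith

theorem result (K : Type) [RCLike K] (n : ℕ) (hn : 2 ≤ n) :
    ∃ (A : Type) (_ : MetricSpace A), Nonempty A ∧ Doubling n A ∧ 0 < ae K 1 A ∧ ae K 1 A < ⊤ ∧
      Tendsto (fun p => ae K p A / ae K 1 A) (𝓝[>] 0) (𝓝 ⊤) := by
  have h4 : ae K 1 A3 < ⊤ := (ae_one_le K).trans_lt (by simp)
  refine ⟨A3, inferInstance, ⟨va⟩, doub n hn, one_pos.trans_le (one_le_ae K one_pos le_rfl), h4,
    ?_⟩
  have := ENNReal.Tendsto.div_const (b := ae K 1 A3) (ae_tendsto K) (Or.inl ENNReal.top_ne_zero)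
  rwa [ENNReal.top_div_of_lt_top h4] at this

end Pool.Agent.Results.MP_d7144b_an.Q1
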